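import Mathlib

set_option autoImplicit false

namespace Pool.Agent.H.MP_acc68d_an

open MeasureTheory Metric Set Filter Topology
open scoped ENNReal NNReal

def cone {n : ℕ} (x θ : EuclideanSpace ℝ (Fin n)) (α : ℝ) : Set (EuclideanSpace ℝ (Fin n)) :=
  {y | Real.sqrt (1 - α ^ 2) * ‖y - x‖ < inner ℝ (y - x) θ}

variable {n : ℕ}

lemma net {α : ℝ} (h0 : 0 < α) : ∃ T : Finset (EuclideanSpace ℝ (Fin n)),
    (∀ θ ∈ T, ‖θ‖ = 1) ∧ ∀ x y : EuclideanSpace ℝ (Fin n), x ≠ y → ∃ θ ∈ T, y ∈ cone x θ α := by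
  have hb : Real.sqrt (1 - α ^ 2) < 1 := by
    rw [Real.sqrt_lt' one_pos]; nlinarith
  obtain ⟨T, h1, h2⟩ := (isCompact_sphere (0 : EuclideanSpace ℝ (Fin n)) 1).elim_nhds_subcover
    (fun θ => {v | Real.sqrt (1 - α ^ 2) * ‖v‖ < inner ℝ v θ}) (by
      intro x hx
      have hx1 : ‖x‖ = 1 := by simpa using hx
      refine (isOpen_lt (by fun_prop) (by fun_prop)).mem_nhds ?_
      simp [hx1, hb])
  refine ⟨T, fun θ h => by simpa using h1 θ h, fun x y hxy => ?_⟩
  have hv : 0 < ‖y - x‖ := norm_pos_iff.mpr (sub_ne_zero.mpr hxy.symm)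
  have := h2 (a := ‖y - x‖⁻¹ • (y - x)) (by simp [norm_smul, hv.ne'])
  simp only [mem_iUnion, mem_ofPred_eq] at this
  obtain ⟨θ, hθ, h3⟩ := this
  refine ⟨θ, hθ, ?_⟩
  rw [norm_smul, inner_smul_left, norm_inv, norm_norm, inv_mul_cancel₀ hv.ne', mul_one] at h3
  have h4 := mul_lt_mul_of_pos_left h3 hv
  simp only [conj_trivial] at h4
  rw [← mul_assoc, mul_inv_cancel₀ hv.ne', one_mul, mul_comm] at h4
  exact h4

lemma cone_neg (x y θ : EuclideanSpace ℝ (Fin n)) (α : ℝ) : y ∈ cone x θ α ↔ x ∈ cone y (-θ) α := by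
  simp only [cone, mem_ofPred_eq, norm_sub_rev x y, inner_neg_right]
  rw [← inner_neg_left, neg_sub]

lemma meas_pair (θ : EuclideanSpace ℝ (Fin n)) (α : ℝ) :
    MeasurableSet {p : EuclideanSpace ℝ (Fin n) × EuclideanSpace ℝ (Fin n) | p.2 ∈ cone p.1 θ α} := by
  simp only [cone, mem_ofPred_eq]
  exact (isOpen_lt (by fun_prop) (by fun_prop)).measurableSet

lemma class_bound {α : ℝ} (T : Finset (EuclideanSpace ℝ (Fin n)))
    (sg : EuclideanSpace ℝ (Fin n) → EuclideanSpace ℝ (Fin n))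
    (hT : ∀ x y : EuclideanSpace ℝ (Fin n), x ≠ y → ∃ θ ∈ T, y ∈ cone x (sg θ) α ∨ x ∈ cone y (sg θ) α)
    (ν : Measure (EuclideanSpace ℝ (Fin n))) [IsFiniteMeasure ν] [NullSingletonClass ν] (t : ℝ≥0∞) :
    ν {x | ∀ θ ∈ T, ν (cone x (sg θ) α) ≤ t} ≤ T.card * (2 * t) := by
  obtain ⟨A, hA⟩ : ∃ A, A = {x | ∀ θ ∈ T, ν (cone x (sg θ) α) ≤ t} := ⟨_, rfl⟩
  have hm : MeasurableSet A := by
    have : A = ⋂ θ ∈ T, {x | ν (cone x (sg θ) α) ≤ t} := by
      rw [hA]; ext x; simp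
    rw [this]
    refine T.measurableSet_biInter fun θ _ => ?_
    exact measurableSet_le (measurable_measure_prodMk_left (meas_pair (sg θ) α)) measurable_const
  rw [← hA]
  let ρ := ν.restrict A
  have hint : ∀ θ ∈ T, ∫⁻ x, ρ (cone x (sg θ) α) ∂ρ ≤ t * ν A := by
    intro θ hθ
    calc ∫⁻ x, ρ (cone x (sg θ) α) ∂ρ ≤ ∫⁻ _, t ∂ρ := by
          refine setLIntegral_mono' hm fun x hx => ?_
          rw [hA] at hx
          exact (Measure.restrict_le_self _).trans (hx θ hθ)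
      _ = t * ν A := by simp [ρ]
  have hcov : (univ : Set (EuclideanSpace ℝ (Fin n) × EuclideanSpace ℝ (Fin n))) ⊆
      diagonal _ ∪ ⋃ θ ∈ T, ({p | p.2 ∈ cone p.1 (sg θ) α} ∪ {p | p.1 ∈ cone p.2 (sg θ) α}) := by
    rintro ⟨x, y⟩ -
    by_cases h : x = y
    · exact Or.inl h
    · obtain ⟨θ, hθ, h1⟩ := hT x y h
      exact Or.inr (mem_biUnion hθ h1)
  have hd : (ρ.prod ρ) (diagonal _) = 0 := by
    rw [Measure.prod_apply isClosed_diagonal.measurableSet]
    have : ∀ x : EuclideanSpace ℝ (Fin n), ρ (Prod.mk x ⁻¹' diagonal _) = 0 := by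
      intro x
      have : Prod.mk x ⁻¹' diagonal (EuclideanSpace ℝ (Fin n)) = {x} := by
        ext y; simp [eq_comm]
      rw [this, measure_singleton]
    simp [this]
  have h1 : ν A * ν A ≤ T.card * (2 * t) * ν A := by
    calc ν A * ν A = (ρ.prod ρ) univ := by
          rw [← univ_prod_univ, Measure.prod_prod]; simp [ρ]
      _ ≤ _ := measure_mono hcov
      _ ≤ _ := measure_union_le _ _
      _ ≤ 0 + ∑ θ ∈ T, (ρ.prod ρ)
          ({p | p.2 ∈ cone p.1 (sg θ) α} ∪ {p | p.1 ∈ cone p.2 (sg θ) α}) := by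
          rw [hd]; gcongr; exact measure_biUnion_finset_le _ _
      _ ≤ 0 + ∑ θ ∈ T, (t * ν A + t * ν A) := by
          gcongr with θ hθ
          refine (measure_union_le _ _).trans (add_le_add ?_ ?_)
          · rw [Measure.prod_apply (meas_pair _ _)]; exact hint θ hθ
          · exact (Measure.prod_apply_symm (measurable_swap (meas_pair (sg θ) α))).trans_le
              (hint θ hθ)
      _ = T.card * (2 * t) * ν A := by
          rw [zero_add, Finset.sum_const, nsmul_eq_mul]; ring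
  by_cases h0 : ν A = 0
  · rw [h0]; exact zero_le
  · exact (ENNReal.mul_le_mul_iff_left h0 (measure_ne_top _ _)).mp h1

lemma pigeon {α : ℝ} (T : Finset (EuclideanSpace ℝ (Fin n)))
    (hT : ∀ x y : EuclideanSpace ℝ (Fin n), x ≠ y → ∃ θ ∈ T, y ∈ cone x θ α)
    (ν : Measure (EuclideanSpace ℝ (Fin n))) [IsFiniteMeasure ν] [NullSingletonClass ν] (t : ℝ≥0∞) :
    ν {x | ∀ θ ∈ T, min (ν (cone x θ α)) (ν (cone x (-θ) α)) ≤ t} ≤
      (2 ^ T.card * T.card : ℕ) * (2 * t) := by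
  classical
  have hsub : {x | ∀ θ ∈ T, min (ν (cone x θ α)) (ν (cone x (-θ) α)) ≤ t} ⊆
      ⋃ s ∈ T.powerset, {x | ∀ θ ∈ T, ν (cone x (if θ ∈ s then θ else -θ) α) ≤ t} := by
    intro x hx
    refine mem_biUnion (x := T.filter fun θ => ν (cone x θ α) ≤ t)
      (Finset.mem_coe.mpr (Finset.mem_powerset.mpr (Finset.filter_subset _ _))) fun θ hθ => ?_
    by_cases h : ν (cone x θ α) ≤ t
    · rw [if_pos (by simp [hθ, h])]; exact h
    · rw [if_neg (by simp [h])]
      exact (min_le_iff.mp (hx θ hθ)).resolve_left h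
  refine (measure_mono hsub).trans ((measure_biUnion_finset_le _ _).trans ?_)
  refine (Finset.sum_le_sum fun s _ => class_bound T (fun θ => if θ ∈ s then θ else -θ) ?_ ν t).trans ?_
  · intro x y hxy
    obtain ⟨θ, hθ, h⟩ := hT x y hxy
    refine ⟨θ, hθ, ?_⟩
    by_cases hs : θ ∈ s
    · left; simpa [hs] using h
    · right; simpa [hs] using (cone_neg x y θ α).mp h
  · rw [Finset.sum_const, Finset.card_powerset, nsmul_eq_mul]
    push_cast
    exact le_of_eq (by ring)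

lemma doubling (μ : Measure (EuclideanSpace ℝ (Fin n))) [IsFiniteMeasure μ] :
    ∀ᵐ x ∂μ, ∃ᶠ r in 𝓝[>] (0 : ℝ), μ (closedBall x (3 * r)) ≤ 2 * 3 ^ n * μ (closedBall x r) := by
  filter_upwards [Besicovitch.ae_tendsto_rnDeriv volume μ, Measure.rnDeriv_lt_top volume μ]
    with x h1 h2
  obtain ⟨L, hL⟩ : ∃ L, L = Measure.rnDeriv volume μ x := ⟨_, rfl⟩
  rw [← hL] at h1 h2
  by_contra hc
  rw [not_frequently] at hc
  obtain ⟨r0, hr0, hr⟩ := (nhdsGT_basis (0 : ℝ)).eventually_iff.mp hc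
  let u : ℕ → ℝ := fun j => r0 * (1 / 3) ^ j
  have hu0 : ∀ j, 0 < u j := fun j => by positivity
  have hu : Tendsto u atTop (𝓝[>] 0) := by
    refine tendsto_nhdsWithin_iff.mpr ⟨?_, Eventually.of_forall hu0⟩
    have := (tendsto_pow_atTop_nhds_zero_of_lt_one (r := (1 / 3 : ℝ)) (by norm_num)
      (by norm_num)).const_mul r0
    rwa [mul_zero] at this
  let a : ℕ → ℝ≥0∞ := fun j => volume (closedBall x (u j)) / μ (closedBall x (u j))
  have ha : Tendsto a atTop (𝓝 L) := h1.comp hu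
  have hstep : ∀ j, 2 * a j ≤ a (j + 1) := by
    intro j
    have e1 : u j = 3 * u (j + 1) := by simp only [u]; ring
    have e2 : u (j + 1) < r0 := by
      have : (1 / 3 : ℝ) ^ (j + 1) < 1 := pow_lt_one₀ (by norm_num) (by norm_num) (by omega)
      simp only [u]; nlinarith
    have e3 := (not_le.mp (hr ⟨hu0 (j + 1), e2⟩)).le
    rw [← e1] at e3
    have e4 : volume (closedBall x (u j)) = 3 ^ n * volume (closedBall x (u (j + 1))) := by
      rw [Measure.addHaar_closedBall _ _ (hu0 _).le, Measure.addHaar_closedBall _ _ (hu0 _).le, e1,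
        mul_pow, ENNReal.ofReal_mul (by positivity), ENNReal.ofReal_pow (by norm_num)]
      simp [mul_assoc]
    simp only [a]
    rw [e4, ← mul_div_assoc, ← mul_assoc]
    calc _ ≤ 2 * 3 ^ n * volume (closedBall x (u (j + 1))) /
          (2 * 3 ^ n * μ (closedBall x (u (j + 1)))) := by gcongr
      _ = _ := ENNReal.mul_div_mul_left _ _ (by simp) (by finiteness)
  have hmono : Monotone a := monotone_nat_of_le_succ fun j =>
    le_trans (by rw [two_mul]; exact le_self_add) (hstep j)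
  have hpos : 0 < L := by
    refine lt_of_lt_of_le ?_ (ge_of_tendsto' ha (fun j => hmono (Nat.zero_le j)))
    exact ENNReal.div_pos (measure_closedBall_pos _ _ (hu0 0)).ne' (measure_ne_top _ _)
  have h2L : 2 * L ≤ L := le_of_tendsto_of_tendsto'
    (ENNReal.Tendsto.const_mul ha (Or.inr (by simp))) (ha.comp (tendsto_add_atTop_nat 1)) hstep
  have : 2 * L ≤ 1 * L := by rwa [one_mul]
  have := (ENNReal.mul_le_mul_iff_left hpos.ne' h2.ne).mp this
  norm_num at this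

theorem main (n : ℕ) (α : ℝ) (h0 : 0 < α) : ∃ c : ℝ≥0, 0 < c ∧
    ∀ (μ : Measure (EuclideanSpace ℝ (Fin n))), IsFiniteMeasure μ → (∀ x, μ {x} = 0) →
      ∀ᵐ x ∂μ, ∃ θ : EuclideanSpace ℝ (Fin n), ‖θ‖ = 1 ∧
        (c : ℝ≥0∞) < limsup (fun r : ℝ =>
          min (μ (closedBall x r ∩ cone x θ α)) (μ (closedBall x r ∩ cone x (-θ) α)) /
            μ (closedBall x r)) (𝓝[>] 0) := by
  obtain ⟨T, hT1, hT⟩ := net (n := n) h0
  obtain ⟨N, hN⟩ : ∃ N : ℕ, N = 2 ^ T.card * T.card := ⟨_, rfl⟩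
  obtain ⟨c, hc⟩ : ∃ c : ℝ≥0, c = (16 * 3 ^ n * ((N : ℝ≥0) + 1))⁻¹ := ⟨_, rfl⟩
  have hc0 : 0 < c := by rw [hc]; positivity
  have hcN : (N : ℝ≥0∞) * (2 * (2 * c * (2 * 3 ^ n))) ≤ 2⁻¹ := by
    have : (N : ℝ≥0) * (2 * (2 * c * (2 * 3 ^ n))) ≤ 2⁻¹ := by
      rw [hc, ← NNReal.coe_le_coe]
      push_cast
      have h3 : (0 : ℝ) < 3 ^ n := by positivity
      have h4 : (0 : ℝ) ≤ N := by positivity
      field_simp
      nlinarith
    have h2 := ENNReal.coe_le_coe.mpr this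
    rw [ENNReal.coe_inv (by norm_num)] at h2
    simpa using h2
  refine ⟨c, hc0, fun μ hμ hat => ?_⟩
  have : NullSingletonClass μ := ⟨hat⟩
  have key : ∀ k : ℕ, μ {x | ∀ r ∈ Ioo (0 : ℝ) (1 / ((k : ℝ) + 1)), ∀ θ ∈ T,
      min (μ (closedBall x r ∩ cone x θ α)) (μ (closedBall x r ∩ cone x (-θ) α)) ≤
        2 * c * μ (closedBall x r)} = 0 := by
    intro k
    obtain ⟨A, hA⟩ : ∃ A, A = {x | ∀ r ∈ Ioo (0 : ℝ) (1 / ((k : ℝ) + 1)), ∀ θ ∈ T,
      min (μ (closedBall x r ∩ cone x θ α)) (μ (closedBall x r ∩ cone x (-θ) α)) ≤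
        2 * c * μ (closedBall x r)} := ⟨_, rfl⟩
    rw [← hA]
    by_contra hne
    obtain ⟨x, -, hx1, hx2⟩ := Measure.exists_mem_of_measure_ne_zero_of_ae hne
      ((Besicovitch.ae_tendsto_measure_inter_div μ A).and (ae_restrict_of_ae (doubling μ)))
    have hk : (0 : ℝ) < 1 / ((k : ℝ) + 1) / 2 := by positivity
    obtain ⟨r, hr1, hr2, hr3⟩ := (hx2.and_eventually ((hx1.eventually (lt_mem_nhds
      (show (2⁻¹ : ℝ≥0∞) < 1 by simp))).and (Ioo_mem_nhdsGT hk))).exists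
    obtain ⟨hr3, hr4⟩ : 0 < r ∧ r < 1 / ((k : ℝ) + 1) / 2 := hr3
    have hp := pigeon (α := α) T hT (μ.restrict (closedBall x r))
      (2 * c * (2 * 3 ^ n) * μ (closedBall x r))
    have hsub : A ∩ closedBall x r ⊆ {y | ∀ θ ∈ T, min (μ.restrict (closedBall x r) (cone y θ α))
        (μ.restrict (closedBall x r) (cone y (-θ) α)) ≤
          2 * c * (2 * 3 ^ n) * μ (closedBall x r)} ∩ closedBall x r := by
      rintro y ⟨hy1, hy2⟩
      refine ⟨fun θ hθ => ?_, hy2⟩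
      rw [hA] at hy1
      have b1 := hy1 (2 * r) ⟨by linarith, by linarith⟩ θ hθ
      have hy3 : dist y x ≤ r := hy2
      have b2 : closedBall x r ⊆ closedBall y (2 * r) :=
        closedBall_subset_closedBall' (by rw [dist_comm]; linarith)
      have b3 : closedBall y (2 * r) ⊆ closedBall x (3 * r) :=
        closedBall_subset_closedBall' (by linarith)
      have b4 : ∀ s, μ.restrict (closedBall x r) s ≤ μ (closedBall y (2 * r) ∩ s) := by
        intro s
        rw [Measure.restrict_apply' measurableSet_closedBall, inter_comm]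
        exact measure_mono (inter_subset_inter_left _ b2)
      refine (min_le_min (b4 _) (b4 _)).trans (b1.trans ?_)
      rw [mul_assoc (2 * (c : ℝ≥0∞))]
      gcongr
      exact (measure_mono b3).trans hr1
    have h5 := ((measure_mono hsub).trans (Measure.le_restrict_apply _ _)).trans hp
    rw [← hN] at h5
    have h6 : μ (A ∩ closedBall x r) ≤ 2⁻¹ * μ (closedBall x r) := by
      refine h5.trans ?_
      rw [← mul_assoc (2 : ℝ≥0∞), ← mul_assoc]
      gcongr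
    exact absurd hr2 (not_lt.mpr (ENNReal.div_le_of_le_mul h6))
  filter_upwards [ae_all_iff.mpr fun k => measure_eq_zero_iff_ae_notMem.mp (key k)] with x hx
  by_contra hcon
  push Not at hcon
  have hev : ∀ᶠ r in 𝓝[>] (0 : ℝ), ∀ θ ∈ T,
      min (μ (closedBall x r ∩ cone x θ α)) (μ (closedBall x r ∩ cone x (-θ) α)) ≤
        2 * c * μ (closedBall x r) := by
    rw [Filter.eventually_all_finset]
    intro θ hθ
    have h1 : (c : ℝ≥0∞) < 2 * c := by
      rw [two_mul]; exact ENNReal.lt_add_right ENNReal.coe_ne_top (by simpa using hc0.ne')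
    filter_upwards [eventually_lt_of_limsup_lt ((hcon θ (hT1 θ hθ)).trans_lt h1)] with r hr
    exact (ENNReal.div_le_iff_le_mul (Or.inr (by finiteness)) (Or.inl (measure_ne_top _ _))).mp hr.le
  obtain ⟨r0, hr0, hr⟩ := (nhdsGT_basis (0 : ℝ)).eventually_iff.mp hev
  obtain ⟨k, hk⟩ := exists_nat_one_div_lt hr0
  exact hx k fun r h => hr ⟨h.1, h.2.trans hk⟩

end Pool.Agent.H.MP_acc68d_an
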